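import Pool.Agent.H31.DH5

namespace Pool.Agent.Results.MP_0380a0_co.Universal

open Pool.Agent.H31.DH

theorem result : ∃ (X : Type) (H : SimpleGraph X), Countable X ∧ IsDH H ∧
    (∀ x y : X, ∃ e : H ≃g H, e x = y) ∧
    ∀ (V : Type) (G : SimpleGraph V), Countable V → IsDH G → Nonempty (G ↪g H) :=
  ⟨_, U, inferInstance, U_dh, U_trans, fun _ _ _ h => univ_emb h⟩

end Pool.Agent.Results.MP_0380a0_co.Universal
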